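import Mathlib

/-!
# A Fréchet-Urysohn group of sequence-rank `ω₁` (in ZFC)

Let `V` be the vector space over the field with two elements with basis `e i`, `i < ω₁`, with the
topology of pointwise convergence of coordinates (a sigma-product). Let `H` be the group of all
bicontinuous automorphisms of `V` which map every subspace `V_α = span {e i : i < α}` onto itself, and
let `G` be the semidirect product of `V` (as an open subgroup) and the discrete group `H`.

* Every sequence in `V` that converges to `0` has a subsequence which is contained in the image of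
  `{e i : i < α}` under some element of `H`, for some `α < ω₁`. So the topology of `G` is generated
  by the `ω₁` sequences that enumerate `{e i : i < α}`.
* Any countable set of sequences of `G` converging to the identity is, up to finitely many terms of
  every sequence, contained in some `V_α`, a normal subgroup of `G` that is not open. So countably
  many sequences do not generate the topology.
-/

set_option autoImplicit false

open Filter Topology Set Cardinal

namespace Pool.Agent.Results.MP_2f4f34_gt.RankOmegaOne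

/-! ### The notions of the problem -/

/-- `σ` is a Hausdorff group topology on `G` in which all sequences that are members of `S`
converge to the identity. -/
structure Admissible {G : Type} [Group G] (S : Set (ℕ → G)) (σ : TopologicalSpace G) : Prop where
  group : @IsTopologicalGroup G σ _
  t2 : @T2Space G σ
  conv : ∀ u ∈ S, Tendsto u atTop (@nhds G σ 1)

/-- `τ = τ_S`: the topology `τ` is the finest Hausdorff group topology on `G` in which all
sequences that are members of `S` converge to the identity (in particular `S` is a `T_s`-set). -/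
def IsTau {G : Type} [Group G] (S : Set (ℕ → G)) (τ : TopologicalSpace G) : Prop :=
  Admissible S τ ∧ ∀ σ : TopologicalSpace G, Admissible S σ → τ ≤ σ

/-- `(G, τ)` is an `s`-group: `τ = τ_S` for some set `S` of sequences. -/
def IsSGroup {G : Type} [Group G] (τ : TopologicalSpace G) : Prop :=
  ∃ S : Set (ℕ → G), IsTau S τ

/-- The sequence-rank `r_s(G, τ)`: the least cardinality of a set `S` of sequences with
`τ = τ_S`. -/
noncomputable def rs {G : Type} [Group G] (τ : TopologicalSpace G) : Cardinal.{0} :=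
  sInf {c | ∃ S : Set (ℕ → G), IsTau S τ ∧ #S = c}

/-! ### The group -/

noncomputable section

section construction

variable (I : Type) [LinearOrder I]

/-- the vector space over the field with two elements with basis `I` -/
abbrev V : Type := I →₀ ZMod 2

variable {I}

/-- continuity at `0` (for additive maps) -/
def RowFinite (f : V I → V I) : Prop :=
  ∀ i, ∃ F : Finset I, ∀ x : V I, (∀ j ∈ F, x j = 0) → f x i = 0

/-- the subspaces `V_α` are mapped into themselves -/
def Lower (f : V I → V I) : Prop :=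
  ∀ (α : I) (x : V I), (∀ i, x i ≠ 0 → i < α) → ∀ i, f x i ≠ 0 → i < α

theorem RowFinite.comp {f g : V I → V I} (hf : RowFinite f) (hg : RowFinite g) :
    RowFinite (fun x => f (g x)) := by
  classical
  intro i
  obtain ⟨F, hF⟩ := hf i
  choose E hE using hg
  refine ⟨F.biUnion E, fun x hx => hF _ fun j hj => hE j x fun k hk => hx k ?_⟩
  exact Finset.mem_biUnion.2 ⟨j, hj, hk⟩

theorem Lower.comp {f g : V I → V I} (hf : Lower f) (hg : Lower g) :
    Lower (fun x => f (g x)) := fun α x hx => hf α _ (hg α x hx)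

theorem RowFinite.id : RowFinite (fun x : V I => x) := fun i =>
  ⟨{i}, fun _ hx => hx i (Finset.mem_singleton_self i)⟩

theorem Lower.id : Lower (fun x : V I => x) := fun _ _ hx => hx

variable (I)

/-- the group of the bicontinuous automorphisms of `V` which preserve all subspaces `V_α` -/
def H : Subgroup (V I ≃ₗ[ZMod 2] V I) where
  carrier := {h | RowFinite (fun x => h x) ∧ RowFinite (fun x => h.symm x) ∧
    Lower (fun x => h x) ∧ Lower (fun x => h.symm x)}
  mul_mem' := by
    rintro a b ⟨h1, h2, h3, h4⟩ ⟨k1, k2, k3, k4⟩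
    exact ⟨h1.comp k1, k2.comp h2, h3.comp k3, k4.comp h4⟩
  one_mem' := ⟨RowFinite.id, RowFinite.id, Lower.id, Lower.id⟩
  inv_mem' := by
    rintro a ⟨h1, h2, h3, h4⟩
    exact ⟨h2, h1, h4, h3⟩

/-- the semidirect product -/
@[ext] structure G where
  /-- the translation part -/
  a : V I
  /-- the automorphism part -/
  h : H I

namespace G

variable {I}

instance : Mul (G I) := ⟨fun g k => ⟨g.a + g.h.1 k.a, g.h * k.h⟩⟩
instance : One (G I) := ⟨⟨0, 1⟩⟩
instance : Inv (G I) := ⟨fun g => ⟨-(g.h⁻¹).1 g.a, g.h⁻¹⟩⟩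

@[simp] theorem mul_a (g k : G I) : (g * k).a = g.a + g.h.1 k.a := rfl
@[simp] theorem mul_h (g k : G I) : (g * k).h = g.h * k.h := rfl
@[simp] theorem one_a : (1 : G I).a = 0 := rfl
@[simp] theorem one_h : (1 : G I).h = 1 := rfl
@[simp] theorem inv_a (g : G I) : (g⁻¹).a = -(g.h⁻¹).1 g.a := rfl
@[simp] theorem inv_h (g : G I) : (g⁻¹).h = g.h⁻¹ := rfl

instance : Group (G I) := Group.ofLeftAxioms
  (by
    intro x y z
    ext1
    · simp [add_assoc]
    · simp [mul_assoc])
  (by
    intro x
    ext1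
    · simp
    · simp)
  (by
    intro x
    ext1
    · simp
    · simp)

/-- the basic neighbourhoods of the identity -/
def U (F : Finset I) : Set (G I) := {g | g.h = 1 ∧ ∀ i ∈ F, g.a i = 0}

theorem U_mono {F F' : Finset I} (h : F ⊆ F') : U F' ⊆ U F := fun _ hg =>
  ⟨hg.1, fun i hi => hg.2 i (h hi)⟩

theorem conj_mem (g : G I) (x : V I) : g * ⟨x, 1⟩ * g⁻¹ = ⟨g.h.1 x, 1⟩ := by
  ext1
  · simp
  · simp

variable (I)

/-- the filter basis of the topology -/
@[instance_reducible]
def B : GroupFilterBasis (G I) where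
  sets := range U
  nonempty := ⟨_, ∅, rfl⟩
  inter_sets := by
    classical
    rintro _ _ ⟨F, rfl⟩ ⟨F', rfl⟩
    exact ⟨_, ⟨F ∪ F', rfl⟩, subset_inter (U_mono Finset.subset_union_left)
      (U_mono Finset.subset_union_right)⟩
  one' := by
    rintro _ ⟨F, rfl⟩
    exact ⟨rfl, fun _ _ => rfl⟩
  mul' := by
    rintro _ ⟨F, rfl⟩
    refine ⟨_, ⟨F, rfl⟩, ?_⟩
    rintro _ ⟨x, hx, y, hy, rfl⟩
    refine ⟨?_, fun i hi => ?_⟩
    · simp [hx.1, hy.1]
    · simp [hx.1, hx.2 i hi, hy.2 i hi]
  inv' := by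
    rintro _ ⟨F, rfl⟩
    refine ⟨_, ⟨F, rfl⟩, ?_⟩
    rintro x hx
    refine ⟨?_, fun i hi => ?_⟩
    · simp [hx.1]
    · simp [hx.1, hx.2 i hi]
  conj' := by
    classical
    rintro g _ ⟨F, rfl⟩
    have hrow : RowFinite (fun x => g.h.1 x) := g.h.2.1
    choose E hE using hrow
    refine ⟨_, ⟨F.biUnion E, rfl⟩, ?_⟩
    rintro ⟨x, k⟩ ⟨hk, hx⟩
    have hk' : k = 1 := hk
    subst hk'
    simp only [mem_preimage, conj_mem]
    refine ⟨rfl, fun i hi => hE i x fun j hj => hx j ?_⟩
    exact Finset.mem_biUnion.2 ⟨i, hi, hj⟩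

/-- the topology -/
@[instance_reducible]
def top : TopologicalSpace (G I) := (B I).topology

variable {I}

theorem isTopologicalGroup : @IsTopologicalGroup (G I) (top I) _ := (B I).isTopologicalGroup

theorem mem_nhds_one (W : Set (G I)) : W ∈ @nhds (G I) (top I) 1 ↔ ∃ F, U F ⊆ W := by
  have h := (B I).nhds_one_hasBasis.mem_iff (t := W)
  constructor
  · intro hW
    obtain ⟨_, ⟨F, rfl⟩, hF⟩ := h.1 hW
    exact ⟨F, hF⟩
  · rintro ⟨F, hF⟩
    exact h.2 ⟨_, ⟨F, rfl⟩, hF⟩

theorem mem_nhds (g : G I) (W : Set (G I)) :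
    W ∈ @nhds (G I) (top I) g ↔ ∃ F : Finset I, ∀ x : V I, (∀ i ∈ F, x i = 0) →
      g * ⟨x, 1⟩ ∈ W := by
  have h := ((B I).nhds_hasBasis g).mem_iff (t := W)
  constructor
  · intro hW
    obtain ⟨_, ⟨F, rfl⟩, hF⟩ := h.1 hW
    exact ⟨F, fun x hx => hF ⟨⟨x, 1⟩, ⟨rfl, hx⟩, rfl⟩⟩
  · rintro ⟨F, hF⟩
    refine h.2 ⟨_, ⟨F, rfl⟩, ?_⟩
    rintro _ ⟨⟨x, k⟩, ⟨hk, hx⟩, rfl⟩
    have hk' : k = 1 := hk
    subst hk'
    exact hF x hx

theorem t2 : @T2Space (G I) (top I) := by
  rw [@GroupFilterBasis.t2Space_iff (G I) _ (top I) (B I) rfl]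
  ext g
  simp only [mem_sInter, mem_singleton_iff]
  constructor
  · intro h
    have h1 : ∀ F : Finset I, g ∈ U F := fun F => h _ ⟨F, rfl⟩
    ext1
    · ext i
      exact (h1 {i}).2 i (Finset.mem_singleton_self i)
    · exact (h1 ∅).1
  · rintro rfl _ ⟨F, rfl⟩
    exact ⟨rfl, fun _ _ => rfl⟩

end G

end construction

end

/-! ### Sequences with disjoint supports -/

section seq

variable {I : Type} [LinearOrder I]

theorem exists_disjoint_seq (P : V I → Prop)
    (hP : ∀ F : Finset I, ∃ x : V I, (∀ i ∈ F, x i = 0) ∧ P x) :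
    ∃ x : ℕ → V I, (∀ k, P (x k)) ∧ ∀ i j k, x j i ≠ 0 → x k i ≠ 0 → j = k := by
  classical
  choose Φ h1 h2 using hP
  let F : ℕ → Finset I := fun n => Nat.rec ∅ (fun _ E => E ∪ (Φ E).support) n
  have hF : ∀ n, F (n + 1) = F n ∪ (Φ (F n)).support := fun n => rfl
  have hmono : Monotone F := monotone_nat_of_le_succ fun n => by
    rw [hF]; exact Finset.subset_union_left
  have key : ∀ i j k, j < k → Φ (F j) i ≠ 0 → Φ (F k) i = 0 := by
    intro i j k hjk hj
    apply h1
    apply hmono (Nat.succ_le_of_lt hjk)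
    rw [Nat.succ_eq_add_one, hF]
    exact Finset.mem_union_right _ (Finsupp.mem_support_iff.2 hj)
  refine ⟨fun n => Φ (F n), fun k => h2 _, fun i j k hj hk => ?_⟩
  rcases lt_trichotomy j k with h | h | h
  · exact absurd (key i j k h hj) hk
  · exact h
  · exact absurd (key i k j h hk) hj

theorem tendsto_of_disjoint (g : G I) (x : ℕ → V I)
    (hx : ∀ i j k, x j i ≠ 0 → x k i ≠ 0 → j = k) :
    Tendsto (fun n => g * ⟨x n, 1⟩) atTop (@nhds (G I) (G.top I) g) := by
  rw [tendsto_def]
  intro W hW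
  obtain ⟨F, hF⟩ := (G.mem_nhds g W).1 hW
  have h1 : ∀ i, ∀ᶠ n in atTop, x n i = 0 := by
    intro i
    have hfin : {n | x n i ≠ 0}.Finite :=
      Set.Subsingleton.finite fun m hm n hn => hx i m n hm hn
    have := hfin.compl_mem_cofinite
    rw [Nat.cofinite_eq_atTop] at this
    filter_upwards [this] with n hn
    simpa using hn
  have h2 : ∀ᶠ n in atTop, ∀ i ∈ F, x n i = 0 := (Finset.eventually_all F).2 fun i _ => h1 i
  filter_upwards [h2] with n hn
  exact hF _ hn

theorem frechetUrysohn : @FrechetUrysohnSpace (G I) (G.top I) := by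
  let := G.top I
  refine ⟨fun A g hg => ?_⟩
  rw [mem_closure_iff_nhds] at hg
  obtain ⟨x, hx1, hx2⟩ := exists_disjoint_seq (fun x : V I => g * ⟨x, 1⟩ ∈ A) (by
    intro F
    obtain ⟨b, hb1, hb2⟩ := hg {b | ∃ x : V I, (∀ i ∈ F, x i = 0) ∧ g * ⟨x, 1⟩ = b}
      ((G.mem_nhds g _).2 ⟨F, fun x hx => ⟨x, hx, rfl⟩⟩)
    obtain ⟨x, hx, rfl⟩ := hb1
    exact ⟨x, hx, hb2⟩)
  exact ⟨_, hx1, tendsto_of_disjoint g x hx2⟩

/-! ### The automorphisms -/

/-- For a sequence of nonzero vectors with disjoint supports there is an element of `H` which maps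
the basis vector at the maximum of the support of the `k`-th vector to the `k`-th vector. -/
theorem exists_auto (x : ℕ → V I) (hx0 : ∀ k, x k ≠ 0)
    (hx : ∀ i j k, x j i ≠ 0 → x k i ≠ 0 → j = k) :
    ∃ (ξ : ℕ → I) (h : H I), (∀ k, x k (ξ k) ≠ 0) ∧ ∀ k, h.1 (Finsupp.single (ξ k) 1) = x k := by
  classical
  have hne : ∀ k, (x k).support.Nonempty := fun k => Finsupp.support_nonempty_iff.2 (hx0 k)
  let ξ : ℕ → I := fun k => (x k).support.max' (hne k)
  have hξ1 : ∀ k, x k (ξ k) ≠ 0 := fun k =>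
    Finsupp.mem_support_iff.1 ((x k).support.max'_mem (hne k))
  have hξ2 : ∀ k i, x k i ≠ 0 → i ≤ ξ k := fun k i hi =>
    (x k).support.le_max' i (Finsupp.mem_support_iff.2 hi)
  have hξinj : ∀ j k, ξ j = ξ k → j = k := fun j k hjk =>
    hx (ξ j) j k (hξ1 j) (by rw [hjk]; exact hξ1 k)
  have hξone : ∀ k, x k (ξ k) = 1 := by
    intro k
    have h2 : ∀ c : ZMod 2, c ≠ 0 → c = 1 := by decide
    exact h2 _ (hξ1 k)
  -- the correction vectors
  let d : I → V I := fun i => if h : ∃ k, ξ k = i then x h.choose - Finsupp.single i 1 else 0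
  have hd1 : ∀ k, d (ξ k) = x k - Finsupp.single (ξ k) 1 := by
    intro k
    have h : ∃ j, ξ j = ξ k := ⟨k, rfl⟩
    have h' : h.choose = k := hξinj _ _ h.choose_spec
    simp only [d, dif_pos h, h']
  have hd2 : ∀ i, (¬ ∃ k, ξ k = i) → d i = 0 := fun i h => by simp only [d, dif_neg h]
  have hd3 : ∀ k i, d (ξ k) i ≠ 0 → x k i ≠ 0 ∧ i < ξ k := by
    intro k i hi
    rw [hd1] at hi
    have hne' : i ≠ ξ k := by
      rintro rfl
      simp [hξone] at hi
    have h3 : x k i ≠ 0 := by
      simpa [Finsupp.single_apply, hne'.symm] using hi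
    exact ⟨h3, lt_of_le_of_ne (hξ2 k i h3) hne'⟩
  let D : V I →ₗ[ZMod 2] V I := Finsupp.linearCombination (ZMod 2) d
  have hDapply : ∀ (y : V I) (i : I), D y i = ∑ j ∈ y.support, y j * d j i := by
    intro y i
    simp only [D, Finsupp.linearCombination_apply, Finsupp.sum, Finsupp.coe_finsetSum,
      Finset.sum_apply, Finsupp.smul_apply, smul_eq_mul]
  have hDsingle : ∀ k, D (Finsupp.single (ξ k) 1) = x k - Finsupp.single (ξ k) 1 := by
    intro k
    simp only [D, Finsupp.linearCombination_single, one_smul, hd1]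
  -- if `D y i ≠ 0` then some `j` in the support of `y` has `d j i ≠ 0`
  have hDne : ∀ (y : V I) (i : I), D y i ≠ 0 → ∃ k, y (ξ k) ≠ 0 ∧ x k i ≠ 0 ∧ i < ξ k := by
    intro y i hi
    rw [hDapply] at hi
    obtain ⟨j, hj1, hj2⟩ := Finset.exists_ne_zero_of_sum_ne_zero hi
    have hj3 : y j ≠ 0 := left_ne_zero_of_mul hj2
    have hj4 : d j i ≠ 0 := right_ne_zero_of_mul hj2
    by_cases h : ∃ k, ξ k = j
    · obtain ⟨k, rfl⟩ := h
      exact ⟨k, hj3, hd3 k i hj4⟩
    · rw [hd2 j h] at hj4
      exact absurd rfl hj4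
  have hDD : ∀ y, D (D y) = 0 := by
    intro y
    ext i
    by_contra hne'
    obtain ⟨k, hk1, -, -⟩ := hDne (D y) i hne'
    obtain ⟨l, -, hl1, hl2⟩ := hDne y (ξ k) hk1
    have : l = k := hx (ξ k) l k hl1 (hξ1 k)
    subst this
    exact lt_irrefl _ hl2
  let f : V I →ₗ[ZMod 2] V I := LinearMap.id + D
  have hf : Function.Involutive f := by
    intro y
    have h2 : ∀ z : V I, z + z = 0 := by
      intro z
      ext i
      simp only [Finsupp.add_apply, Finsupp.zero_apply]
      generalize z i = c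
      revert c
      decide
    have : f (f y) = y + (D y + D y) + D (D y) := by
      simp only [f, LinearMap.add_apply, LinearMap.id_apply, map_add]
      abel
    rw [this, hDD, h2]
    simp
  let e : V I ≃ₗ[ZMod 2] V I := LinearEquiv.ofInvolutive f hf
  have he : ∀ y, e y = y + D y := fun y => rfl
  have hrow : RowFinite (fun y : V I => y + D y) := by
    intro i
    by_cases h : ∃ k, x k i ≠ 0
    · obtain ⟨k, hk⟩ := h
      refine ⟨{i, ξ k}, fun y hy => ?_⟩
      by_contra hne'
      have h1 : y i = 0 := hy i (by simp)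
      have h2 : D y i ≠ 0 := by
        intro h0
        exact hne' (by simp [h1, h0])
      obtain ⟨l, hl1, hl2, -⟩ := hDne y i h2
      have : l = k := hx i l k hl2 hk
      subst this
      exact hl1 (hy _ (by simp))
    · push Not at h
      refine ⟨{i}, fun y hy => ?_⟩
      by_contra hne'
      have h1 : y i = 0 := hy i (by simp)
      have h2 : D y i ≠ 0 := by
        intro h0
        exact hne' (by simp [h1, h0])
      obtain ⟨l, -, hl2, -⟩ := hDne y i h2
      exact hl2 (h l)
  have hlow : Lower (fun y : V I => y + D y) := by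
    intro α y hy i hi
    by_cases h1 : y i = 0
    · have h2 : D y i ≠ 0 := by
        intro h0
        exact hi (by simp [h1, h0])
      obtain ⟨l, hl1, -, hl3⟩ := hDne y i h2
      exact hl3.trans (hy _ hl1)
    · exact hy i h1
  have he' : ∀ y, e.symm y = y + D y := by
    intro y
    rw [LinearEquiv.symm_apply_eq, ← he]
    exact (hf y).symm
  refine ⟨ξ, ⟨e, ?_, ?_, ?_, ?_⟩, hξ1, fun k => ?_⟩
  · simpa only [he] using hrow
  · simpa only [he'] using hrow
  · simpa only [he] using hlow
  · simpa only [he'] using hlow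
  · show e (Finsupp.single (ξ k) 1) = x k
    rw [he, hDsingle]
    abel

end seq

/-! ### The sequence-rank -/

section rank

variable {I : Type} [LinearOrder I]

/-- the sequence enumerating the basis vectors below `α` (with zeros in between) -/
theorem exists_enum (hI : ∀ α : I, (Iio α).Countable) (α : I) :
    ∃ (v : ℕ → V I) (c : I → ℕ), InjOn c (Iio α) ∧ (∀ ξ < α, v (c ξ) = Finsupp.single ξ 1) ∧
      ∀ i j k, v j i ≠ 0 → v k i ≠ 0 → j = k := by
  classical
  obtain ⟨c, hc⟩ := Set.countable_iff_exists_injOn.1 (hI α)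
  let v : ℕ → V I := fun n => if h : ∃ ξ, ξ < α ∧ c ξ = n then Finsupp.single h.choose 1 else 0
  have hv : ∀ ξ < α, v (c ξ) = Finsupp.single ξ 1 := by
    intro ξ hξ
    have h : ∃ η, η < α ∧ c η = c ξ := ⟨ξ, hξ, rfl⟩
    have h' : h.choose = ξ := hc h.choose_spec.1 hξ h.choose_spec.2
    simp only [v, dif_pos h, h']
  refine ⟨v, c, hc, hv, ?_⟩
  have key : ∀ i j, v j i ≠ 0 → c i = j := by
    intro i j hj
    by_cases h : ∃ ξ, ξ < α ∧ c ξ = j
    · simp only [v, dif_pos h] at hj
      have : h.choose = i := by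
        by_contra hne
        exact hj (Finsupp.single_eq_of_ne (Ne.symm hne))
      rw [← this]
      exact h.choose_spec.2
    · simp [v, dif_neg h] at hj
  intro i j k hj hk
  rw [← key i j hj, ← key i k hk]

theorem exists_bound [Uncountable I] (hI : ∀ α : I, (Iio α).Countable) {C : Set I}
    (hC : C.Countable) : ∃ α : I, ∀ i ∈ C, i < α := by
  by_contra hcon
  push Not at hcon
  have h1 : (Set.univ : Set I) ⊆ ⋃ i ∈ C, (Iio i ∪ {i}) := by
    intro α _
    obtain ⟨i, hi, hα⟩ := hcon α
    refine mem_biUnion hi ?_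
    rcases hα.lt_or_eq with h | h
    · exact Or.inl h
    · exact Or.inr h
  have h2 : (Set.univ : Set I).Countable :=
    (hC.biUnion fun i _ => (hI i).union (countable_singleton i)).mono h1
  exact not_countable (α := I) (Set.countable_univ_iff.1 h2)

/-- The topology of `G` is generated by sequences indexed by `I`. -/
theorem exists_generating [Uncountable I] (hI : ∀ α : I, (Iio α).Countable) :
    ∃ S : Set (ℕ → G I), IsTau S (G.top I) ∧ #S ≤ #I := by
  classical
  choose v c hc hv hdis using exists_enum hI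
  refine ⟨range fun (α : I) (n : ℕ) => (⟨v α n, 1⟩ : G I), ⟨⟨G.isTopologicalGroup, G.t2, ?_⟩, ?_⟩,
    mk_range_le⟩
  · rintro _ ⟨α, rfl⟩
    have := tendsto_of_disjoint (1 : G I) (v α) (hdis α)
    simpa using this
  · intro σ hσ
    have hσg : @IsTopologicalGroup (G I) σ _ := hσ.group
    -- it is enough to compare the neighbourhoods of the identity
    have key : ∀ W ∈ @nhds (G I) σ 1, W ∈ @nhds (G I) (G.top I) 1 := by
      intro W hW
      rw [G.mem_nhds_one]
      by_contra hcon
      push Not at hcon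
      obtain ⟨x, hx1, hx2⟩ := exists_disjoint_seq (fun x : V I => (⟨x, 1⟩ : G I) ∉ W) (by
        intro F
        obtain ⟨⟨x, k⟩, ⟨hk, hx⟩, hW'⟩ := Set.not_subset.1 (hcon F)
        have hk' : k = 1 := hk
        subst hk'
        exact ⟨x, hx, hW'⟩)
      have hx0 : ∀ k, x k ≠ 0 := by
        intro k h0
        apply hx1 k
        rw [h0]
        exact mem_of_mem_nhds hW
      obtain ⟨ξ, h, hξ, hh⟩ := exists_auto x hx0 hx2
      have hξinj : Function.Injective ξ := fun j k hjk =>
        hx2 (ξ j) j k (hξ j) (by rw [hjk]; exact hξ k)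
      obtain ⟨α, hα⟩ := exists_bound hI (countable_range ξ)
      have hα' : ∀ k, ξ k < α := fun k => hα _ ⟨k, rfl⟩
      have h1 : Tendsto (fun n => (⟨v α n, 1⟩ : G I)) atTop (@nhds (G I) σ 1) :=
        hσ.conv _ ⟨α, rfl⟩
      -- conjugation
      have h2 : Tendsto (fun g : G I => (⟨0, h⟩ : G I) * g * (⟨0, h⟩ : G I)⁻¹) (@nhds (G I) σ 1)
          (@nhds (G I) σ 1) := by
        have := (IsTopologicalGroup.continuous_conj (⟨0, h⟩ : G I)).tendsto (1 : G I)
        simpa using this
      have h3 : Tendsto (fun k => c α (ξ k)) atTop atTop := by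
        apply Function.Injective.nat_tendsto_atTop
        intro j k hjk
        exact hξinj (hc α (hα' j) (hα' k) hjk)
      have h4 := (h2.comp h1).comp h3
      have h5 : ∀ᶠ k in atTop, (⟨x k, 1⟩ : G I) ∈ W := by
        have := h4.eventually_mem hW
        filter_upwards [this] with k hk
        simp only [Function.comp_apply, G.conj_mem, hv α (ξ k) (hα' k), hh k] at hk
        exact hk
      obtain ⟨k, hk⟩ := h5.exists
      exact hx1 k hk
    have hid : @Continuous (G I) (G I) (G.top I) σ (MonoidHom.id (G I)) := by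
      refine @continuous_of_continuousAt_one (G I) (G.top I) _ G.isTopologicalGroup (G I)
        (G I →* G I) _ σ (@IsTopologicalGroup.toContinuousMul _ σ _ hσ.group) _ _
        (MonoidHom.id (G I)) ?_
      intro W hW
      exact key W hW
    exact continuous_id_iff_le.1 hid

/-- The subgroup `V_α`. -/
def VV (α : I) : Subgroup (G I) where
  carrier := {g | g.h = 1 ∧ ∀ i, g.a i ≠ 0 → i < α}
  mul_mem' := by
    rintro a b ⟨h1, h2⟩ ⟨k1, k2⟩
    refine ⟨by simp [h1, k1], fun i hi => ?_⟩
    by_contra hlt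
    have h3 : a.a i = 0 := by by_contra h; exact hlt (h2 i h)
    have h4 : b.a i = 0 := by by_contra h; exact hlt (k2 i h)
    apply hi
    simp [h1, h3, h4]
  one_mem' := ⟨rfl, fun i hi => absurd rfl hi⟩
  inv_mem' := by
    rintro a ⟨h1, h2⟩
    refine ⟨by simp [h1], fun i hi => h2 i ?_⟩
    intro h3
    apply hi
    simp [h1, h3]

theorem VV_normal (α : I) : (VV α).Normal := by
  constructor
  rintro ⟨x, k⟩ ⟨hk, hx⟩ g
  have hk' : k = 1 := hk
  subst hk'
  rw [G.conj_mem]
  exact ⟨rfl, g.h.2.2.2.1 α x hx⟩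

/-- A normal subgroup as the least neighbourhood of the identity in a group topology. -/
theorem exists_quotient_topology {G : Type} [Group G] (N : Subgroup G) [N.Normal] :
    ∃ q : TopologicalSpace G, @IsTopologicalGroup G q _ ∧
      ∀ W, W ∈ @nhds G q 1 ↔ (N : Set G) ⊆ W := by
  let t : TopologicalSpace (G ⧸ N) := ⊥
  have ht : DiscreteTopology (G ⧸ N) := ⟨rfl⟩
  refine ⟨TopologicalSpace.induced (QuotientGroup.mk' N) t,
    topologicalGroup_induced (QuotientGroup.mk' N), fun W => ?_⟩
  rw [nhds_induced, map_one, nhds_discrete, comap_pure, mem_principal]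
  have : (QuotientGroup.mk' N) ⁻¹' {1} = (N : Set G) := by
    ext g
    exact QuotientGroup.eq_one_iff g
  rw [this]

/-- Countably many sequences do not generate the topology of `G`. -/
theorem not_countable_generating [Uncountable I] (hI : ∀ α : I, (Iio α).Countable)
    (S : Set (ℕ → G I)) (hS : S.Countable) : ¬ IsTau S (G.top I) := by
  classical
  rintro ⟨hA, hB⟩
  obtain ⟨α, hα⟩ : ∃ α : I, ∀ u ∈ S, ∀ n i, (u n).a i ≠ 0 → i < α := by
    have hc : (⋃ u ∈ S, ⋃ n : ℕ, ((u n).a.support : Set I)).Countable :=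
      hS.biUnion fun u _ => countable_iUnion fun n => Finset.countable_toSet _
    obtain ⟨α, hα⟩ := exists_bound hI hc
    refine ⟨α, fun u hu n i hi => hα i ?_⟩
    exact mem_biUnion hu (mem_iUnion.2 ⟨n, Finsupp.mem_support_iff.2 hi⟩)
  have hnormal : (VV α).Normal := VV_normal α
  obtain ⟨q, hq, hq1⟩ := exists_quotient_topology (VV α)
  have hle : G.top I ≤ G.top I ⊓ q := by
    refine hB _ ⟨topologicalGroup_inf G.isTopologicalGroup hq, ?_, ?_⟩
    · exact @t2Space_antitone (G I) _ _ inf_le_left G.t2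
    · intro u hu
      have h1 := hA.conv u hu
      rw [@nhds_inf (G I) (G.top I) q, tendsto_inf]
      refine ⟨h1, ?_⟩
      have h2 : ∀ᶠ n in atTop, u n ∈ (VV α : Set (G I)) := by
        have h3 : G.U (∅ : Finset I) ∈ @nhds (G I) (G.top I) 1 :=
          (G.mem_nhds_one _).2 ⟨∅, le_rfl⟩
        filter_upwards [h1 h3] with n hn
        exact ⟨hn.1, hα u hu n⟩
      rw [tendsto_def]
      intro W hW
      filter_upwards [h2] with n hn
      exact (hq1 W).1 hW hn
  have hle' : G.top I ≤ q := hle.trans inf_le_right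
  have hopen : (VV α : Set (G I)) ∈ @nhds (G I) (G.top I) 1 :=
    nhds_mono hle' ((hq1 _).2 le_rfl)
  obtain ⟨F, hF⟩ := (G.mem_nhds_one _).1 hopen
  obtain ⟨β, hβ⟩ := exists_bound hI (C := (F : Set I) ∪ {α})
    ((Finset.countable_toSet F).union (countable_singleton α))
  have h5 : (⟨Finsupp.single β 1, 1⟩ : G I) ∈ G.U F := by
    refine ⟨rfl, fun i hi => ?_⟩
    have : i ≠ β := (hβ i (Or.inl hi)).ne
    exact Finsupp.single_eq_of_ne this
  have h6 := (hF h5).2 β (by simp)
  exact lt_asymm h6 (hβ α (Or.inr rfl))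

end rank

/-- **Main theorem.** There is (in ZFC) a Hausdorff Fréchet-Urysohn topological group `(G, τ)` with
`r_s(G, τ) = ω₁`. -/
theorem result : ∃ (G : Type) (_ : Group G) (τ : TopologicalSpace G),
    @IsTopologicalGroup G τ _ ∧ @T2Space G τ ∧ @FrechetUrysohnSpace G τ ∧ IsSGroup τ ∧
      rs τ = ℵ₁ := by
  let I : Type := (ℵ₁ : Cardinal.{0}).ord.ToType
  have hcard : #I = ℵ₁ := by simp [I]
  have hI : ∀ α : I, (Iio α).Countable := by
    intro α
    have h1 : #(Iio α) < ℵ₁ := by
      have := Cardinal.mk_Iio_lt α (by rw [hcard]; simp [I])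
      rwa [hcard] at this
    rwa [Cardinal.lt_aleph_one_iff, Cardinal.le_aleph0_iff_set_countable] at h1
  have hunc : Uncountable I := by
    rw [← Cardinal.aleph0_lt_mk_iff, hcard]
    exact Cardinal.aleph0_lt_aleph_one
  obtain ⟨S, hS1, hS2⟩ := exists_generating hI
  refine ⟨G I, inferInstance, G.top I, G.isTopologicalGroup, G.t2, frechetUrysohn, ⟨S, hS1⟩, ?_⟩
  apply le_antisymm
  · exact (csInf_le' (s := {c | ∃ S : Set (ℕ → G I), IsTau S (G.top I) ∧ #S = c})
      ⟨S, hS1, rfl⟩).trans (hS2.trans hcard.le)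
  · refine le_csInf ⟨_, S, hS1, rfl⟩ ?_
    rintro _ ⟨S', hS', rfl⟩
    by_contra hlt
    rw [not_le, Cardinal.lt_aleph_one_iff, Cardinal.le_aleph0_iff_set_countable] at hlt
    exact not_countable_generating hI S' hlt hS'

end Pool.Agent.Results.MP_2f4f34_gt.RankOmegaOne
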